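import Pool.Agent.Work.MP_c4d05f_lc.N.Alg.Defs2
import Pool.Agent.Work.MP_c4d05f_lc.N.Hav.Tarm

/-!
# The arms in the graph, and no star on the terminals
-/

set_option autoImplicit false

namespace Pool.Agent.Work.MP_c4d05f_lc.N

open Pool.Agent.Work.MP_c4d05f_lc Pool.Agent.Work.MP_c4d05f_lc.Hav

variable {V : Type} {G : SimpleGraph V} {l : ℕ} {a : ℕ → ℕ → V}

/-- Four anticomplete arms whose ends are in one component. -/
structure Arms (G : SimpleGraph V) (l : ℕ) (a : ℕ → ℕ → V) : Prop where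
  pos : 1 ≤ l
  ind : ∀ i < 4, IndSeq G (l + 1) (a i)
  anti : ∀ i i', i < i' → i' < 4 → ∀ j j', j ≤ l → j' ≤ l → Apart G (a i j) (a i' j')
  ends : ∀ i < 4, a i l ∈ VZ G l a

theorem TmV_sub (hl : 1 ≤ l) : TmV l a ⊆ ArmV l a := by
  rintro v ⟨i, hi, rfl⟩
  exact ⟨i, hi, l - 1, by omega, rfl⟩

/-- The ends of the arms are not arm vertices. -/
theorem end_notin (hind : ∀ i < 4, IndSeq G (l + 1) (a i))
    (hanti : ∀ i i', i < i' → i' < 4 → ∀ j j', j ≤ l → j' ≤ l → Apart G (a i j) (a i' j'))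
    {i : ℕ} (hi : i < 4) : a i l ∉ ArmV l a ∪ NArm G l a := by
  rintro (⟨i', hi', j, hj, h⟩ | ⟨-, h, -⟩)
  · rcases lt_trichotomy i i' with h1 | h1 | h1
    · exact (hanti i i' h1 hi' l j le_rfl hj.le).1 h
    · subst h1
      exact (hind i hi j l hj (by omega)).1 h.symm
    · exact (hanti i' i h1 hi j l hj.le le_rfl).1 h.symm
  · exact h i hi rfl

namespace Arms

variable (ha : Arms G l a)
include ha

theorem anti' {i i' : ℕ} (h : i ≠ i') (hi : i < 4) (hi' : i' < 4) {j j' : ℕ} (hj : j ≤ l)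
    (hj' : j' ≤ l) : Apart G (a i j) (a i' j') := by
  rcases lt_or_gt_of_ne h with h1 | h1
  · exact ha.anti i i' h1 hi' j j' hj hj'
  · exact (ha.anti i' i h1 hi j' j hj' hj).symm

theorem inj {i : ℕ} (hi : i < 4) {j j' : ℕ} (hj : j ≤ l) (hj' : j' ≤ l)
    (h : a i j = a i j') : j = j' := by
  rcases lt_trichotomy j j' with h1 | h1 | h1
  · exact absurd h (ha.ind i hi j j' h1 (by omega)).1
  · exact h1
  · exact absurd h.symm (ha.ind i hi j' j h1 (by omega)).1

theorem vz_sub : VZ G l a ⊆ (ArmV l a ∪ NArm G l a)ᶜ :=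
  comp_subset (end_notin ha.ind ha.anti (by omega))

theorem vz_arm {v : V} (hv : v ∈ VZ G l a) : v ∉ ArmV l a := fun h => ha.vz_sub hv (Or.inl h)

theorem vz_tm {v : V} (hv : v ∈ VZ G l a) : v ∉ TmV l a := fun h =>
  ha.vz_arm hv (TmV_sub ha.pos h)

/-- The only edges between the arms and `VZ` are those at the ends. -/
theorem nbr {i j : ℕ} (hi : i < 4) (hj : j < l) {v : V} (hv : v ∈ VZ G l a)
    (h : G.Adj (a i j) v) : v = a i l ∧ j + 1 = l := by
  have h1 : ∃ i' < 4, v = a i' l := by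
    by_contra hcon
    push Not at hcon
    exact ha.vz_sub hv (Or.inr ⟨ha.vz_arm hv, hcon, a i j, ⟨i, hi, j, hj, rfl⟩, h⟩)
  obtain ⟨i', hi', rfl⟩ := h1
  by_cases hii : i = i'
  · subst hii
    have h2 := (ha.ind i hi j l hj (by omega)).2.1 h
    exact ⟨rfl, h2.symm⟩
  · exact absurd h (ha.anti' hii hi hi' hj.le le_rfl).2

theorem tm_nbr {i : ℕ} (hi : i < 4) {v : V} (hv : v ∈ VZ G l a ∪ TmV l a)
    (h : G.Adj (a i (l - 1)) v) : v = a i l := by
  have hl := ha.pos
  rcases hv with hv | ⟨i', hi', rfl⟩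
  · exact (ha.nbr hi (by omega) hv h).1
  · by_cases hii : i = i'
    · subst hii
      exact absurd rfl h.ne
    · exact absurd h (ha.anti' hii hi hi' (by omega) (by omega)).2

theorem low_nbr {i j : ℕ} (hi : i < 4) (hj : j + 1 < l) {v : V} (hv : v ∈ VZ G l a ∪ TmV l a)
    (h : G.Adj (a i j) v) : v = a i (l - 1) ∧ j + 2 = l := by
  rcases hv with hv | ⟨i', hi', rfl⟩
  · have := (ha.nbr hi (by omega) hv h).2
    omega
  · by_cases hii : i = i'
    · subst hii
      have h2 := (ha.ind i hi j (l - 1) (by omega) (by omega)).2.1 h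
      exact ⟨rfl, by omega⟩
    · exact absurd h (ha.anti' hii hi hi' (by omega) (by omega)).2

theorem low_notin {i j : ℕ} (hi : i < 4) (hj : j + 1 < l) : a i j ∉ VZ G l a ∪ TmV l a := by
  rintro (h | ⟨i', hi', h⟩)
  · exact ha.vz_arm h ⟨i, hi, j, by omega, rfl⟩
  · by_cases hii : i = i'
    · subst hii
      have := ha.inj hi (by omega) (by omega) h
      omega
    · exact (ha.anti' hii hi hi' (by omega) (by omega)).1 h

/-- `VZ` is connected to the ends inside `VZ`. -/
theorem vz_conn {u v : V} (hu : u ∈ VZ G l a) (hv : v ∈ VZ G l a) : Reach G (VZ G l a) u v := by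
  have h0 : a 0 l ∈ (ArmV l a ∪ NArm G l a)ᶜ := end_notin ha.ind ha.anti (by omega)
  have e : Comp G (ArmV l a ∪ NArm G l a)ᶜ u = VZ G l a := comp_eq h0 hu
  have hv' : Reach G (ArmV l a ∪ NArm G l a)ᶜ u v := by
    have : v ∈ Comp G (ArmV l a ∪ NArm G l a)ᶜ u := by rw [e]; exact hv
    exact this
  have key : ∀ z, Reach G (ArmV l a ∪ NArm G l a)ᶜ u z →
      Reach G (VZ G l a) u z ∧ z ∈ VZ G l a := by
    intro z hz
    induction hz with
    | refl => exact ⟨Relation.ReflTransGen.refl, hu⟩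
    | @tail p q h1 h2 ih =>
      have hq : q ∈ VZ G l a := adj_mem_comp ih.2 h2.2 h2.1
      exact ⟨ih.1.tail ⟨h2.1, hq⟩, hq⟩
  exact (key v hv').1

/-- Any two terminals are joined inside `VZ ∪ TmV`. -/
theorem tm_conn {t t' : V} (ht : t ∈ TmV l a) (ht' : t' ∈ TmV l a) :
    Reach G (VZ G l a ∪ TmV l a) t t' := by
  have hl := ha.pos
  obtain ⟨i, hi, rfl⟩ := ht
  obtain ⟨i', hi', rfl⟩ := ht'
  have h1 : G.Adj (a i (l - 1)) (a i l) :=
    (ha.ind i hi (l - 1) l (by omega) (by omega)).2.2 (by omega)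
  have h2 : G.Adj (a i' (l - 1)) (a i' l) :=
    (ha.ind i' hi' (l - 1) l (by omega) (by omega)).2.2 (by omega)
  have h3 : Reach G (VZ G l a ∪ TmV l a) (a i l) (a i' l) :=
    comp_mono (G := G) Set.subset_union_left (a i l)
      (show a i' l ∈ Comp G (VZ G l a) (a i l) from ha.vz_conn (ha.ends i hi) (ha.ends i' hi'))
  have h4 : Reach G (VZ G l a ∪ TmV l a) (a i (l - 1)) (a i l) :=
    Relation.ReflTransGen.single ⟨h1, Or.inl (ha.ends i hi)⟩
  exact (h4.trans h3).tail ⟨h2.symm, Or.inr ⟨i', hi', rfl⟩⟩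

/-- **No star.** There are no vertex `h` and three pairwise anticomplete sets in `VZ ∪ TmV` that
join `h` to terminals. -/
theorem noStar (hS : ¬ HasS G l) (h : V) (U : ℕ → Set V) (t : ℕ → V)
    (hh : h ∈ VZ G l a ∪ TmV l a) (hU : ∀ i < 3, U i ⊆ VZ G l a ∪ TmV l a)
    (hhU : ∀ i < 3, h ∉ U i) (hanti : ∀ i j, i < j → j < 3 → Anti G (U i) (U j))
    (ht : ∀ i < 3, t i ∈ TmV l a) (htU : ∀ i < 3, t i ∈ U i)
    (hr : ∀ i < 3, Reach G (U i) h (t i)) : False := by
  classical
  have hl := ha.pos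
  apply hS
  have hσ : ∀ i, ∃ s, i < 3 → s < 4 ∧ t i = a s (l - 1) := by
    intro i
    by_cases hi : i < 3
    · obtain ⟨s, hs, h'⟩ := ht i hi
      exact ⟨s, fun _ => ⟨hs, h'⟩⟩
    · exact ⟨0, fun h' => absurd h' hi⟩
  choose σ hσ using hσ
  -- the arms of different indices are different
  have hne : ∀ i j, i < 3 → j < 3 → i < j → σ i ≠ σ j := by
    intro i j hi hj hij he
    have h1 := (hanti i j hij hj (t i) (htU i hi) (t j) (htU j hj)).1
    rw [(hσ i hi).2, (hσ j hj).2, he] at h1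
    exact h1 rfl
  let f : ℕ → V → ℕ := fun i x => if x = h then 0 else
    if hx : ∃ j, j + 1 < l ∧ x = a (σ i) j then l - hx.choose else 1
  have f0 : ∀ i, f i h = 0 := fun i => by simp [f]
  have flow : ∀ i < 3, ∀ j, j + 1 < l → f i (a (σ i) j) = l - j := by
    intro i hi j hj
    have h1 : a (σ i) j ≠ h := fun he => ha.low_notin (hσ i hi).1 hj (he ▸ hh)
    have hx : ∃ j', j' + 1 < l ∧ a (σ i) j = a (σ i) j' := ⟨j, hj, rfl⟩
    have h2 : f i (a (σ i) j) = l - hx.choose := by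
      simp only [f]
      rw [if_neg h1, dif_pos hx]
    have h3 := hx.choose_spec
    have h4 := ha.inj (hσ i hi).1 (by omega) (by omega) h3.2
    rw [h2, ← h4]
  have fU : ∀ i < 3, ∀ x ∈ U i, f i x = 1 := by
    intro i hi x hx
    have h1 : x ≠ h := fun he => hhU i hi (he ▸ hx)
    have h2 : ¬ ∃ j', j' + 1 < l ∧ x = a (σ i) j' := by
      rintro ⟨j, hj, rfl⟩
      exact ha.low_notin (hσ i hi).1 hj (hU i hi hx)
    simp only [f]
    rw [if_neg h1, dif_neg h2]
  refine hasS_of_sets h (fun i => U i ∪ {x | ∃ j, j + 1 < l ∧ x = a (σ i) j})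
    (fun i => a (σ i) 0) f ?_ ?_ (fun i _ => f0 i) ?_ ?_
  · -- anticomplete
    intro i j hij hj x hx y hy
    have hi : i < 3 := by omega
    rcases hx with hx | ⟨m, hm, rfl⟩
    · rcases hy with hy | ⟨m', hm', rfl⟩
      · exact hanti i j hij hj x hx y hy
      · refine ⟨fun he => ha.low_notin (hσ j hj).1 hm' (he ▸ hU i hi hx), fun hadj => ?_⟩
        have h1 := (ha.low_nbr (hσ j hj).1 hm' (hU i hi hx) hadj.symm).1
        rw [← (hσ j hj).2] at h1
        exact (hanti i j hij hj x hx (t j) (htU j hj)).1 h1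
    · rcases hy with hy | ⟨m', hm', rfl⟩
      · refine ⟨fun he => ha.low_notin (hσ i hi).1 hm (he ▸ hU j hj hy), fun hadj => ?_⟩
        have h1 := (ha.low_nbr (hσ i hi).1 hm (hU j hj hy) hadj).1
        rw [← (hσ i hi).2] at h1
        exact (hanti i j hij hj (t i) (htU i hi) y hy).1 h1.symm
      · exact ha.anti' (hne i j hi hj hij) (hσ i hi).1 (hσ j hj).1 (by omega) (by omega)
  · -- the walk
    intro i hi
    have h1 : ∀ m, m + 1 ≤ l → Reach G (U i ∪ {x | ∃ j, j + 1 < l ∧ x = a (σ i) j}) h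
        (a (σ i) (l - 1 - m)) := by
      intro m
      induction m with
      | zero =>
        intro _
        have h2 := hr i hi
        rw [(hσ i hi).2] at h2
        exact comp_mono (G := G) Set.subset_union_left h
          (show a (σ i) (l - 1) ∈ Comp G (U i) h from h2)
      | succ m ih =>
        intro hm
        refine (ih (by omega)).tail ⟨?_, Or.inr ⟨l - 1 - (m + 1), by omega, rfl⟩⟩
        exact ((ha.ind (σ i) (hσ i hi).1 (l - 1 - (m + 1)) (l - 1 - m) (by omega)
          (by omega)).2.2 (by omega)).symm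
    have h2 := h1 (l - 1) (by omega)
    rw [Nat.sub_self] at h2
    exact h2
  · -- far
    intro i hi
    rcases Nat.lt_or_ge 1 l with h1 | h1
    · exact (flow i hi 0 (by omega)).ge
    · have h2 : l - 1 = 0 := by omega
      have h3 : a (σ i) 0 ∈ U i := by
        have := htU i hi
        rw [(hσ i hi).2, h2] at this
        exact this
      have h4 := fU i hi _ h3
      change l ≤ f i (a (σ i) 0)
      omega
  · intro i hi x y hx hy hadj
    rcases hy with hy | ⟨m, hm, rfl⟩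
    · rw [fU i hi y hy]
      omega
    · rw [flow i hi m hm]
      rcases hx with (hx | ⟨m', hm', rfl⟩) | rfl
      · obtain ⟨-, h2⟩ := ha.low_nbr (hσ i hi).1 hm (hU i hi hx) hadj.symm
        rw [fU i hi x hx]
        omega
      · rw [flow i hi m' hm']
        rcases lt_trichotomy m m' with h1 | h1 | h1
        · have h2 := (ha.ind (σ i) (hσ i hi).1 m m' h1 (by omega)).2.1 hadj.symm
          omega
        · omega
        · omega
      · obtain ⟨h1, -⟩ := ha.low_nbr (hσ i hi).1 hm hh hadj.symm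
        rw [← (hσ i hi).2] at h1
        exact absurd (h1 ▸ htU i hi) (hhU i hi)

end Arms

end Pool.Agent.Work.MP_c4d05f_lc.N
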