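import Pool.Agent.Work.MP_c4d05f_lc.N.Fr.Arm

/-!
# The haven is not in a particle (centrality)
-/

set_option autoImplicit false

namespace Pool.Agent.Work.MP_c4d05f_lc.N

open Pool.Agent.Work.MP_c4d05f_lc Pool.Agent.Work.MP_c4d05f_lc.Hav

variable {V : Type} {k : ℕ} {H : HS V k} {l : ℕ} {a : ℕ → ℕ → V} {Q : ℕ → Set V} {X : Finset V}

/-- The output of the haven theory: four anticomplete arms with robust ends. -/
structure Ends (H : HS V k) (l : ℕ) (a : ℕ → ℕ → V) (Q : ℕ → Set V) (X : Finset V) : Prop where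
  pos : 1 ≤ l
  card : X.card + 3 ≤ k
  ind : ∀ i < 4, IndSeq H.G (l + 1) (a i)
  conn : ∀ i < 4, Conn H.G (Q i)
  adj : ∀ i < 4, ∃ q ∈ Q i, H.G.Adj (a i l) q
  apart : ∀ i < 4, ∀ j < l, ∀ q ∈ Q i, Apart H.G (a i j) q
  det : ∀ i < 4, ∀ j < l, H.Det X (a i j)
  rob : ∀ i < 4, ∀ Z, Ext X 3 Z → ∃ q ∈ Q i, ¬ H.Det Z q
  anti : ∀ i i', i < i' → i' < 4 →
    Anti H.G (Q i ∪ {x | ∃ j ≤ l, x = a i j}) (Q i' ∪ {x | ∃ j ≤ l, x = a i' j})

namespace Ends

variable (he : Ends H l a Q X)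
include he

theorem anti2 (i i' : ℕ) (h : i < i') (hi' : i' < 4) (j j' : ℕ) (hj : j ≤ l) (hj' : j' ≤ l) :
    Apart H.G (a i j) (a i' j') :=
  he.anti i i' h hi' _ (Or.inr ⟨j, hj, rfl⟩) _ (Or.inr ⟨j', hj', rfl⟩)

theorem anti' {i i' : ℕ} (h : i ≠ i') (hi : i < 4) (hi' : i' < 4) :
    Anti H.G (Q i ∪ {x | ∃ j ≤ l, x = a i j}) (Q i' ∪ {x | ∃ j ≤ l, x = a i' j}) := by
  rcases lt_or_gt_of_ne h with h1 | h1
  · exact he.anti i i' h1 hi'
  · exact (he.anti i' i h1 hi).symm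

/-- `Q i` avoids the arms and their neighbours. -/
theorem q_compl {i : ℕ} (hi : i < 4) {q : V} (hq : q ∈ Q i) :
    q ∈ (ArmV l a ∪ NArm H.G l a)ᶜ := by
  have key : ∀ i' < 4, ∀ j < l, Apart H.G (a i' j) q := by
    intro i' hi' j hj
    by_cases h : i' = i
    · subst h
      exact he.apart i' hi' j hj q hq
    · exact he.anti' h hi' hi _ (Or.inr ⟨j, hj.le, rfl⟩) q (Or.inl hq)
  rintro (⟨i', hi', j, hj, h⟩ | ⟨-, -, u, ⟨i', hi', j, hj, rfl⟩, h⟩)
  · exact (key i' hi' j hj).1 h.symm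
  · exact (key i' hi' j hj).2 h

/-- `β X` avoids the arms and their neighbours. -/
theorem b_compl {b : V} (hb : b ∈ H.β X) : b ∈ (ArmV l a ∪ NArm H.G l a)ᶜ := by
  rintro (⟨i, hi, j, hj, h⟩ | ⟨-, -, u, ⟨i, hi, j, hj, rfl⟩, h⟩)
  · exact ((he.det i hi j hj).apart hb).1 h.symm
  · exact ((he.det i hi j hj).apart hb).2 h

/-- The end number `i` is joined to all of `Q i`. -/
theorem reach_q {i : ℕ} (hi : i < 4) {q : V} (hq : q ∈ Q i) :
    Reach H.G (ArmV l a ∪ NArm H.G l a)ᶜ (a i l) q := by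
  obtain ⟨q0, hq0, hadj⟩ := he.adj i hi
  have h1 : Reach H.G (ArmV l a ∪ NArm H.G l a)ᶜ (a i l) q0 :=
    Relation.ReflTransGen.single ⟨hadj, he.q_compl hi hq0⟩
  refine h1.trans ?_
  exact comp_mono (G := H.G) (fun z hz => he.q_compl hi hz) q0
    (show q ∈ Comp H.G (Q i) q0 from he.conn i hi q0 hq0 q hq)

/-- The end number `i` is joined to all of `β X`. -/
theorem reach_b {i : ℕ} (hi : i < 4) {b : V} (hb : b ∈ H.β X) :
    Reach H.G (ArmV l a ∪ NArm H.G l a)ᶜ (a i l) b := by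
  have hc := he.card
  have hb' : ∀ b0 ∈ H.β X, Reach H.G (ArmV l a ∪ NArm H.G l a)ᶜ b0 b := fun b0 hb0 =>
    comp_mono (G := H.G) (fun z hz => he.b_compl hz) b0
      (show b ∈ Comp H.G (H.β X) b0 from H.conn X (by omega) b0 hb0 b hb)
  obtain ⟨q, hq, hd⟩ := he.rob i hi X ⟨Finset.Subset.refl _, by omega⟩
  have hrq := he.reach_q hi hq
  by_cases hqb : q ∈ H.β X
  · exact hrq.trans (hb' q hqb)
  · obtain ⟨-, -, u, hu, hadj⟩ := H.att_white (by omega) hd hqb
    exact (hrq.tail ⟨hadj, he.b_compl hu⟩).trans (hb' u hu)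

theorem end_notin' {i : ℕ} (hi : i < 4) : a i l ∉ ArmV l a ∪ NArm H.G l a :=
  end_notin he.ind he.anti2 hi

/-- All ends are in one component. -/
theorem end_vz {i : ℕ} (hi : i < 4) : a i l ∈ VZ H.G l a := by
  have hc := he.card
  obtain ⟨b, hb⟩ := H.nonempty X (by omega)
  have h1 := he.reach_b (i := 0) (by omega) hb
  have h2 := Reach.symm (A := (ArmV l a ∪ NArm H.G l a)ᶜ) (he.end_notin' hi) (he.reach_b hi hb)
  exact h1.trans h2

/-- `Q i` is in the component. -/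
theorem q_vz {i : ℕ} (hi : i < 4) {q : V} (hq : q ∈ Q i) : q ∈ VZ H.G l a :=
  Relation.ReflTransGen.trans (he.end_vz hi) (he.reach_q hi hq)

/-- `β X` is in the component. -/
theorem b_vz {b : V} (hb : b ∈ H.β X) : b ∈ VZ H.G l a := he.reach_b (i := 0) (by omega) hb

theorem arms : Arms H.G l a := ⟨he.pos, he.ind, he.anti2, fun _ hi => he.end_vz hi⟩

/-- **Centrality.** `P` does not contain the terminals, and all its neighbours in `VZ ∪ TmV` are
in the small set `Z`. Then `β (X ∪ Z)` does not meet `P`. -/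
theorem central [DecidableEq V] (P : Set V) (Z : Finset V) (hZ : Z.card ≤ 3)
    (hP : ∀ u ∈ P, ∀ c ∈ VZ H.G l a ∪ TmV l a, H.G.Adj u c → c ∈ P ∨ c ∈ Z)
    (hT : ∀ t ∈ TmV l a, t ∉ P) : ∀ u ∈ H.β (X ∪ Z), u ∉ P := by
  intro u hu huP
  have hc := he.card
  have hl := he.pos
  have hcard : (X ∪ Z).card ≤ X.card + 3 := (Finset.card_union_le X Z).trans (by omega)
  have hext : Ext X 3 (X ∪ Z) := ⟨Finset.subset_union_left, hcard⟩
  -- one of the four sets misses `Z`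
  have hpig : ∃ i < 4, ∀ z ∈ Z, z ∉ Q i ∪ {x | ∃ j ≤ l, x = a i j} := by
    by_contra hcon
    push Not at hcon
    have : Nonempty V := ⟨u⟩
    choose! z hz1 hz2 using hcon
    have hinj : Set.InjOn z (Finset.range 4 : Set ℕ) := by
      intro i hi i' hi' h
      by_contra hne
      rw [Finset.coe_range, Set.mem_Iio] at hi hi'
      exact (he.anti' hne hi hi' _ (hz2 i hi) _ (hz2 i' hi')).1 h
    have := Finset.card_le_card_of_injOn (s := Finset.range 4) (t := Z) z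
      (fun i hi => hz1 i (by simpa using hi)) hinj
    rw [Finset.card_range] at this
    omega
  obtain ⟨i, hi, hmiss⟩ := hpig
  obtain ⟨q, hq, hd⟩ := he.rob i hi _ hext
  -- `β (X ∪ Z)` is in `P`
  have hbz : ∀ b ∈ H.β (X ∪ Z), b ∉ Z := fun b hb hbZ =>
    H.alive (X ∪ Z) (by omega) b hb b (Finset.mem_union_right _ hbZ) (H.self_mem b)
  have hbP : ∀ b ∈ H.β (X ∪ Z), b ∈ P := by
    intro b hb
    have hr := H.conn (X ∪ Z) (by omega) u hu b hb
    clear hb
    induction hr with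
    | refl => exact huP
    | @tail b c h1 h2 ih =>
      rcases hP b ih c (Or.inl (he.b_vz (H.mono X (X ∪ Z) Finset.subset_union_left (by omega)
        h2.2))) h2.1 with h | h
      · exact h
      · exact absurd h (hbz c h2.2)
  -- `q` is in `P`
  have hqP : q ∈ P := by
    by_cases hqb : q ∈ H.β (X ∪ Z)
    · exact hbP q hqb
    · obtain ⟨-, -, b, hb, hadj⟩ := H.att_white (by omega) hd hqb
      rcases hP b (hbP b hb) q (Or.inl (he.q_vz hi hq)) hadj.symm with h | h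
      · exact h
      · exact absurd (Or.inl hq) (hmiss q h)
  -- all of `Q i` is in `P`
  have hQP : ∀ q' ∈ Q i, q' ∈ P := by
    intro q' hq'
    have hr := he.conn i hi q hq q' hq'
    clear hq'
    induction hr with
    | refl => exact hqP
    | @tail b c h1 h2 ih =>
      rcases hP b ih c (Or.inl (he.q_vz hi h2.2)) h2.1 with h | h
      · exact h
      · exact absurd (Or.inl h2.2) (hmiss c h)
  obtain ⟨q0, hq0, hadj⟩ := he.adj i hi
  have heP : a i l ∈ P := by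
    rcases hP q0 (hQP q0 hq0) (a i l) (Or.inl (he.end_vz hi)) hadj.symm with h | h
    · exact h
    · exact absurd (Or.inr ⟨l, le_rfl, rfl⟩) (hmiss _ h)
  have htT : a i (l - 1) ∈ TmV l a := ⟨i, hi, rfl⟩
  have hadj2 : H.G.Adj (a i (l - 1)) (a i l) :=
    (he.ind i hi (l - 1) l (by omega) (by omega)).2.2 (by omega)
  rcases hP (a i l) heP (a i (l - 1)) (Or.inr htT) hadj2.symm with h | h
  · exact hT _ htT h
  · exact absurd (Or.inr ⟨l - 1, by omega, rfl⟩) (hmiss _ h)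

end Ends

end Pool.Agent.Work.MP_c4d05f_lc.N
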