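import Pool.Agent.Work.MP_c4d05f_lc.N.Alg.Defs2

/-!
# The set `UM` is the dead part of a component of `K \ C`
-/

set_option autoImplicit false

namespace Pool.Agent.Work.MP_c4d05f_lc.N

open Pool.Agent.Work.MP_c4d05f_lc

variable {V : Type*} {G : SimpleGraph V} {β : Set V} {X C : Set V} {v₀ v : V}

/-- The black neighbours of an alive vertex of a region are in the region. -/
theorem black_nbr_mem (hβ : Col G Set.univ β) (hv₀ : v₀ ∉ dD G β X) {u e : V}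
    (hu : u ∈ Comp G (dD G β X)ᶜ v₀) (he : e ∈ β) (h : G.Adj u e) :
    e ∈ Comp G (dD G β X)ᶜ v₀ :=
  adj_mem_comp hu (fun hd => comp_subset (A := (dD G β X)ᶜ) hv₀ hu (dD_black hβ hd he h.symm)) h

/-- The black neighbour of a black corner is in `C`. -/
theorem partner_mem (hβ : Col G Set.univ β) {c p : V}
    (htri : ∃ c' ∈ C, ∃ c'' ∈ C, Tri G c c' c'') (hc : c ∈ β) (hp : p ∈ β) (h : G.Adj c p) :
    p ∈ C := by
  obtain ⟨c', hc', c'', hc'', h1, h2, h3⟩ := htri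
  rcases hβ.1 c' trivial c'' trivial h2 with h4 | h4
  · rwa [black_unique hβ hc hp h4 h h1]
  · rwa [black_unique hβ hc hp h4 h h3]

/-- Walks along a class of whites that enter the component `M` of `K \ C`. -/
theorem chain_um (hβ : Col G Set.univ β) (hv₀ : v₀ ∉ dD G β X) {w u : V} (hw : w ∈ Comp G (dD G β X)ᶜ v₀)
    (hwb : w ∉ β) (hwM : w ∉ Comp G (Comp G (dD G β X)ᶜ v₀ \ C) v) (hu : u ∈ cl G w)
    (huM : u ∈ Comp G (Comp G (dD G β X)ᶜ v₀ \ C) v) :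
    u ∈ UM G β (Comp G (dD G β X)ᶜ v₀) C v := by
  set K := Comp G (dD G β X)ᶜ v₀ with hK
  set M := Comp G (K \ C) v with hM
  have hu' : Relation.ReflTransGen (Tw G) w u := hu
  -- either the chain has entered `M` (and then everything after it is in `UM`) or not
  have key : ∀ z, Relation.ReflTransGen (Tw G) w z →
      (z ∉ M ∨ ∀ y ∈ M, y ∈ cl G z → y ∈ UM G β K C v) := by
    intro z hz
    induction hz with
    | refl => exact Or.inl hwM
    | @tail b z h1 h2 ih =>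
      by_cases hzM : z ∈ M
      · right
        have hbb : b ∉ β := fun h => hwb ((cl_color hβ (show b ∈ cl G w from h1)).1 h)
        have hbK : b ∈ K := region_cl hβ hv₀ hw hwb h1
        rcases ih with hbM | hbU
        · intro y hyM hyz
          have hzb : z ∉ β := fun h => hbb ((h2.color hβ).2 h)
          have hyb : y ∈ cl G b := cl_trans (Relation.ReflTransGen.single h2) hyz
          obtain ⟨e, f, -, hbe, hze, -, -⟩ := h2
          have heb : e ∈ β := (hβ.1 b trivial e trivial hbe).resolve_left hbb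
          have heK : e ∈ K := black_nbr_mem hβ hv₀ hbK heb hbe
          by_cases heM : e ∈ M
          · -- `b` is a corner adjacent to `M`
            have hbC : b ∈ C := by
              by_contra hbC
              exact hbM (adj_mem_comp heM ⟨hbK, hbC⟩ hbe.symm)
            exact ⟨hyM, b, ⟨hbK, hbC⟩, ⟨e, heM, hbe.symm⟩, Or.inl ⟨hbb, hyb⟩⟩
          · have heC : e ∈ C := by
              by_contra heC
              exact heM (adj_mem_comp hzM ⟨heK, heC⟩ hze)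
            exact ⟨hyM, e, ⟨heK, heC⟩, ⟨z, hzM, hze⟩, Or.inr ⟨heb, z, hzM, hze.symm, hyz⟩⟩
        · intro y hyM hyz
          exact hbU y hyM (cl_trans (Relation.ReflTransGen.single h2) hyz)
      · exact Or.inl hzM
  rcases key u hu' with h | h
  · exact absurd huM h
  · exact h u huM (mem_cl_self u)

/-- **Lemma U.** -/
theorem um_eq (hβ : Col G Set.univ β) (hv₀ : v₀ ∉ dD G β X)
    (htri : ∀ c ∈ Comp G (dD G β X)ᶜ v₀ ∩ C, ∃ c' ∈ C, ∃ c'' ∈ C, Tri G c c' c'')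
    (hv : v ∈ Comp G (dD G β X)ᶜ v₀ \ C) (Zp : Set V)
    (h1 : ∀ c ∈ Comp G (dD G β X)ᶜ v₀ ∩ C, Att G (Comp G (dD G β X)ᶜ v₀) C v c → c ∈ Zp)
    (h2 : Comp G (dD G β X)ᶜ v₀ ∩ Zp ⊆ C) :
    UM G β (Comp G (dD G β X)ᶜ v₀) C v = Comp G (Comp G (dD G β X)ᶜ v₀ \ C) v ∩
      dD G β (Comp G (dD G β X)ᶜ v₀ ∩ Zp) := by
  set K := Comp G (dD G β X)ᶜ v₀ with hK
  set M := Comp G (K \ C) v with hM
  have hMK : M ⊆ K \ C := comp_subset hv
  ext u
  constructor
  · rintro ⟨huM, c, hc, hatt, ⟨hcb, huc⟩ | ⟨hcb, z, hzM, hcz, huz⟩⟩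
    · refine ⟨huM, c, ⟨hc.1, h1 c hc hatt⟩, ?_⟩
      rw [dd_white hcb]
      exact huc
    · refine ⟨huM, c, ⟨hc.1, h1 c hc hatt⟩, ?_⟩
      have hzb : z ∉ β := fun h => (hMK hzM).2 (partner_mem hβ (htri c hc) hcb h hcz)
      exact Or.inr (Or.inr ⟨hcb, c, z, hcb, Or.inl rfl, hzb, hcz, huz⟩)
  · rintro ⟨huM, c, hc, hu⟩
    have hcC : c ∈ C := h2 hc
    have hcM : c ∉ M := fun h => (hMK h).2 hcC
    rcases hu with ⟨hcb, huc⟩ | ⟨hcb, huc⟩ | ⟨hcb, b, w, hb, hbc, hw, hbw, huw⟩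
    · exact chain_um hβ hv₀ hc.1 hcb hcM huc huM
    · exfalso
      rcases huc with rfl | ⟨hub, hcu⟩
      · exact hcM huM
      · exact (hMK huM).2 (partner_mem hβ (htri c ⟨hc.1, hcC⟩) hcb hub hcu)
    · have hub : u ∉ β := fun h => hw ((cl_color hβ huw).1 h)
      have hwK : w ∈ K := region_cl hβ hv₀ (hMK huM).1 hub (cl_symm huw)
      have hbK : b ∈ K := black_nbr_mem hβ hv₀ hwK hb hbw.symm
      have hbC : b ∈ C := by
        rcases hbc with rfl | h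
        · exact hcC
        · exact partner_mem hβ (htri c ⟨hc.1, hcC⟩) hcb hb h
      by_cases hwM : w ∈ M
      · exact ⟨huM, b, ⟨hbK, hbC⟩, ⟨w, hwM, hbw.symm⟩, Or.inr ⟨hb, w, hwM, hbw, huw⟩⟩
      · exact chain_um hβ hv₀ hwK hw hwM huw huM

/-- The pieces of the frame rule are components of `K \ D(Zp)`. -/
theorem comp_piece (hβ : Col G Set.univ β) (hv₀ : v₀ ∉ dD G β X)
    (htri : ∀ c ∈ Comp G (dD G β X)ᶜ v₀ ∩ C, ∃ c' ∈ C, ∃ c'' ∈ C, Tri G c c' c'')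
    (hv : v ∈ Comp G (dD G β X)ᶜ v₀ \ C) (Zp : Set V)
    (h1 : ∀ c ∈ Comp G (dD G β X)ᶜ v₀ ∩ C, Att G (Comp G (dD G β X)ᶜ v₀) C v c → c ∈ Zp)
    (h2 : Comp G (dD G β X)ᶜ v₀ ∩ Zp ⊆ C) {u : V}
    (hu : u ∈ Comp G (Comp G (dD G β X)ᶜ v₀ \ C) v \ UM G β (Comp G (dD G β X)ᶜ v₀) C v) :
    Comp G (Comp G (Comp G (dD G β X)ᶜ v₀ \ C) v \ UM G β (Comp G (dD G β X)ᶜ v₀) C v) u =
      Comp G (Comp G (dD G β X)ᶜ v₀ \ dD G β Zp) u := by
  rw [um_eq hβ hv₀ htri hv Zp h1 h2] at hu ⊢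
  set K := Comp G (dD G β X)ᶜ v₀ with hK
  set M := Comp G (K \ C) v with hM
  have hMK : M ⊆ K \ C := comp_subset hv
  have e1 : K \ dD G β Zp = K \ dD G β (K ∩ Zp) := by
    ext z
    simp only [Set.mem_sdiff]
    refine and_congr_right fun hz => ?_
    constructor
    · rintro h3 ⟨x, hx, hzx⟩
      exact h3 ⟨x, hx.2, hzx⟩
    · rintro h3 ⟨x, hx, hzx⟩
      by_cases hxK : x ∈ K
      · exact h3 ⟨x, ⟨hxK, hx⟩, hzx⟩
      · exact region_disjoint hβ hv₀ hz hxK hzx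
  have e2 : M \ (M ∩ dD G β (K ∩ Zp)) = M \ dD G β (K ∩ Zp) := by
    ext z
    simp only [Set.mem_sdiff, Set.mem_inter_iff, not_and]
    exact ⟨fun h => ⟨h.1, h.2 h.1⟩, fun h => ⟨h.1, fun _ => h.2⟩⟩
  rw [e1]
  rw [e2] at hu ⊢
  apply Set.Subset.antisymm
  · exact comp_mono (Set.sdiff_subset_sdiff_left (hMK.trans Set.sdiff_subset)) u
  · intro z hz
    have hz' : Reach G (K \ dD G β (K ∩ Zp)) u z := hz
    clear hz
    have key : Reach G (M \ dD G β (K ∩ Zp)) u z ∧ z ∈ M := by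
      induction hz' with
      | refl => exact ⟨Relation.ReflTransGen.refl, hu.1⟩
      | @tail b c h3 h4 ih =>
        have hcM : c ∈ M := by
          by_contra hcM
          have hcC : c ∈ C := by
            by_contra hcC
            exact hcM (adj_mem_comp ih.2 ⟨h4.2.1, hcC⟩ h4.1)
          exact h4.2.2 (self_mem_dD ⟨h4.2.1, h1 c ⟨h4.2.1, hcC⟩ ⟨b, ih.2, h4.1⟩⟩)
        exact ⟨ih.1.tail ⟨h4.1, hcM, h4.2.2⟩, hcM⟩
    exact key.1

end Pool.Agent.Work.MP_c4d05f_lc.N
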