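import Pool.Agent.Work.MP_c4d05f_lc.N.Alg.Defs2

/-!
# The strip theorem in the form used by the haven side, and the frame conditions of a region
-/

set_option autoImplicit false

namespace Pool.Agent.Work.MP_c4d05f_lc.N

open Pool.Agent.Work.MP_c4d05f_lc

variable {V : Type*} {G : SimpleGraph V}

/-- What the strip theorem gives for the set `A` with terminals `T`. -/
structure StripC (G : SimpleGraph V) (A T : Set V) : Prop where
  tri : ∀ c ∈ Core G A T \ T, ∃ c' ∈ Core G A T \ T, ∃ c'' ∈ Core G A T \ T, Tri G c c' c''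
  sep : ∀ v ∈ A \ Core G A T, ∃ x y z, Sep3 G x y z ∧
    ∀ c ∈ Core G A T, Att G A (Core G A T) v c → c = x ∨ c = y ∨ c = z
  link : ∀ c ∈ Core G A T, ∀ d ∈ Core G A T, ∀ d' ∈ Core G A T, ¬ SameTri G c d →
    ¬ SameTri G c d' → Lk G A (Core G A T) c d → Lk G A (Core G A T) c d' → d = d'

/-- A region inside `A` without terminals satisfies the conditions of the frame rule. -/
theorem frame_of_strip {A T K : Set V} (h : StripC G A T) (hKA : K ⊆ A)
    (hKT : ∀ v ∈ K, v ∉ T) : Frame G K (Core G A T \ T) := by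
  have hsub : K \ (Core G A T \ T) ⊆ A \ Core G A T := by
    rintro v ⟨hv, hv'⟩
    exact ⟨hKA hv, fun h1 => hv' ⟨h1, hKT v hv⟩⟩
  have hatt : ∀ v c, Att G K (Core G A T \ T) v c → Att G A (Core G A T) v c := by
    rintro v c ⟨u, hu, hadj⟩
    exact ⟨u, comp_mono hsub v hu, hadj⟩
  have hlk : ∀ c d, Lk G K (Core G A T \ T) c d → Lk G A (Core G A T) c d := by
    rintro c d ⟨hne, h1 | ⟨v, hv, h1, h2⟩⟩
    · exact ⟨hne, Or.inl h1⟩
    · exact ⟨hne, Or.inr ⟨v, hsub hv, hatt v c h1, hatt v d h2⟩⟩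
  refine ⟨fun c hc => h.tri c hc.2, fun v hv => ?_, fun c hc d hd d' hd' h1 h2 h3 h4 =>
    h.link c hc.2.1 d hd.2.1 d' hd'.2.1 h1 h2 (hlk c d h3) (hlk c d' h4)⟩
  obtain ⟨x, y, z, hs, h1⟩ := h.sep v (hsub hv)
  exact ⟨x, y, z, hs, fun c hc hac => h1 c hc.2.1 (hatt v c hac)⟩

end Pool.Agent.Work.MP_c4d05f_lc.N
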