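import Pool.Agent.Work.MP_c4d05f_lc.N.Brg2
import Pool.Agent.Work.MP_c4d05f_lc.N.Hav.Many
import Pool.Agent.Work.MP_c4d05f_lc.N.Fr.LemU
import Pool.Agent.Work.MP_c4d05f_lc.N.Fr.Cen
import Pool.Agent.Work.MP_c4d05f_lc.N.Fr.StripC

/-!
# Stage 2: every region is solved by the rule R1 and the frame rule (from the strip theorem)
-/

set_option autoImplicit false

namespace Pool.Agent.Work.MP_c4d05f_lc.N

open Pool.Agent.Work.MP_c4d05f_lc Pool.Agent.Work.MP_c4d05f_lc.Hav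

variable {V : Type} {G : SimpleGraph V} {β : Set V}

/-- The neighbours (in the core) of the particle of `v`. -/
def PNb (G : SimpleGraph V) (A T : Set V) (v : V) : Set V :=
  {c | c ∈ Core G A T ∧ Att G A (Core G A T) v c}

/-- `PNb` has at most three elements. -/
theorem exists_pnb {A T : Set V} (h : StripC G A T) {v : V} (hv : v ∈ A \ Core G A T) :
    ∃ Z : Finset V, (Z : Set V) = PNb G A T v ∧ Z.card ≤ 3 := by
  classical
  obtain ⟨x, y, z, -, h1⟩ := h.sep v hv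
  have hsub : PNb G A T v ⊆ (({x, y, z} : Finset V) : Set V) := by
    rintro c ⟨hc, hac⟩
    rcases h1 c hc hac with h2 | h2 | h2 <;> simp [h2]
  refine ⟨({x, y, z} : Finset V).filter (fun c => c ∈ PNb G A T v), ?_, ?_⟩
  · ext c
    simp only [Finset.coe_filter, Set.mem_ofPred_eq]
    exact ⟨fun h2 => h2.2, fun h2 => ⟨hsub h2, h2⟩⟩
  · exact (Finset.card_filter_le _ _).trans Finset.card_le_three

/-- **The main step.** A minimal bad region with a haven and four robust arms is good. -/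
theorem good_of_haven [Finite V] [DecidableEq V] (hβ : Col G Set.univ β) {k w₁ w l : ℕ}
    (hw₁ : 2 * (k + 1) ≤ w₁) (hw : w₁ + k + 1 ≤ w) {X₀ : Finset V} {v₀ : V}
    (hX₀ : X₀.card ≤ w₁) (hv₀ : v₀ ∉ dD G β X₀)
    (hmin : ∀ K', Region G β w₁ K' → K'.ncard < (Comp G (dD G β X₀)ᶜ v₀).ncard →
      Der2 G β (CorFam l G) w K')
    (H : HS V k) (hG : H.G = G)
    (hbig : ∀ Y : Finset V, Y.card ≤ k → (∃ u, u ∉ dD G β Y ∧ H.β Y = Comp G (dD G β Y)ᶜ u) ∧
      w₁ < 2 * ((X₀ : Set V) ∩ H.β Y).ncard)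
    {a : ℕ → ℕ → V} {Q : ℕ → Set V} {X : Finset V} (he : Ends H l a Q X)
    (hs : StripC G (VZ G l a ∪ TmV l a) (TmV l a)) :
    Der2 G β (CorFam l G) w (Comp G (dD G β X₀)ᶜ v₀) := by
  subst hG
  have hc := he.card
  have ha := he.arms
  -- the small pieces
  have small : ∀ (Y' Z : Finset V) (u' : V), v₀ ∈ Y' → Z ⊆ Y' → Y'.card ≤ k + 1 → Z.card ≤ k →
      u' ∈ Comp H.G (dD H.G β X₀)ᶜ v₀ → u' ∉ dD H.G β Y' → u' ∉ H.β Z →
      Der2 H.G β (CorFam l H.G) w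
        (Comp H.G (Comp H.G (dD H.G β X₀)ᶜ v₀ \ dD H.G β (Y' : Set V)) u') := by
    intro Y' Z u' hvY hZY hYc hZc hu' huY hub
    obtain ⟨⟨c, hcd, hceq⟩, hcbig⟩ := hbig Z hZc
    rw [hceq] at hub hcbig
    have hsubd : dD H.G β (Z : Set V) ⊆ dD H.G β (Y' : Set V) := dD_mono (by exact_mod_cast hZY)
    have huZ : u' ∉ dD H.G β (Z : Set V) := fun h => huY (hsubd h)
    have h1 := small_other (G := H.G) hX₀ huZ hcd hub hcbig
    have hsubc : Comp H.G (dD H.G β (Y' : Set V))ᶜ u' ⊆ Comp H.G (dD H.G β (Z : Set V))ᶜ u' :=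
      comp_mono (Set.compl_subset_compl.2 hsubd) u'
    have h2 : ((X₀ : Set V) ∩ Comp H.G (dD H.G β (Y' : Set V))ᶜ u').ncard ≤
        ((X₀ : Set V) ∩ Comp H.G (dD H.G β (Z : Set V))ᶜ u').ncard :=
      Set.ncard_le_ncard (Set.inter_subset_inter_right _ hsubc) (Set.toFinite _)
    refine hmin _ (region_piece_small hβ hv₀ hu' huY (by omega) (by omega)) ?_
    refine piece_lt Set.sdiff_subset ⟨hu', huY⟩ (self_mem_comp v₀) ?_
    exact fun h => h.2 (self_mem_dD (by exact_mod_cast hvY))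
  -- kill `X` and `v₀`
  have hYc : (insert v₀ X).card ≤ X.card + 1 := Finset.card_insert_le v₀ X
  refine good_of_kill (w := w) (w₁ := w₁) hβ (fun K y h1 h2 h3 => Der2.step h1 h2 h3)
    ⟨X₀, hX₀, v₀, hv₀, rfl⟩ (insert v₀ X) (by omega) ?_
  intro u hu huY
  by_cases hub : u ∈ H.β X
  swap
  · exact small (insert v₀ X) X u (Finset.mem_insert_self _ _) (Finset.subset_insert _ _)
      (by omega) (by omega) hu huY hub
  -- the piece of `u` is inside `β X`
  obtain ⟨Y, hY⟩ : ∃ Y, Y = insert v₀ X := ⟨_, rfl⟩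
  rw [← hY] at huY hYc ⊢
  have hvY : v₀ ∈ Y := by rw [hY]; exact Finset.mem_insert_self _ _
  have hXY : X ⊆ Y := by rw [hY]; exact Finset.subset_insert _ _
  have eX₁ : (dD H.G β ((X₀ ∪ Y : Finset V) : Set V))ᶜ =
      (dD H.G β (X₀ : Set V))ᶜ \ dD H.G β (Y : Set V) := by
    rw [Finset.coe_union, dD_union, Set.compl_union, Set.sdiff_eq]
  have hu₁ : u ∉ dD H.G β ((X₀ ∪ Y : Finset V) : Set V) := by
    rw [← Set.mem_compl_iff, eX₁]
    exact ⟨comp_subset (A := (dD H.G β (X₀ : Set V))ᶜ) hv₀ hu, huY⟩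
  have eK : Comp H.G (Comp H.G (dD H.G β X₀)ᶜ v₀ \ dD H.G β (Y : Set V)) u =
      Comp H.G (dD H.G β ((X₀ ∪ Y : Finset V) : Set V))ᶜ u := by
    rw [eX₁, comp_comp hv₀ hu]
  obtain ⟨K, hK⟩ : ∃ K, K = Comp H.G (dD H.G β ((X₀ ∪ Y : Finset V) : Set V))ᶜ u := ⟨_, rfl⟩
  have hreg : Region H.G β w K := by
    refine ⟨X₀ ∪ Y, ?_, u, hu₁, hK⟩
    have := Finset.card_union_le X₀ Y
    omega
  have hKsub : ∀ z ∈ K, z ∈ H.β X := by
    obtain ⟨⟨c, hcd, hceq⟩, -⟩ := hbig X (by omega)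
    rw [hceq] at hub ⊢
    have h1 : Comp H.G (dD H.G β (X : Set V))ᶜ u = Comp H.G (dD H.G β (X : Set V))ᶜ c :=
      comp_eq (A := (dD H.G β (X : Set V))ᶜ) hcd hub
    intro z hz
    rw [← h1]
    rw [hK] at hz
    refine comp_mono (Set.compl_subset_compl.2 (dD_mono ?_)) u hz
    exact_mod_cast hXY.trans Finset.subset_union_right
  have hKA : K ⊆ VZ H.G l a ∪ TmV l a := fun z hz => Or.inl (he.b_vz (hKsub z hz))
  have hKT : ∀ z ∈ K, z ∉ TmV l a := fun z hz => ha.vz_tm (he.b_vz (hKsub z hz))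
  -- the good pieces
  obtain ⟨A, hA⟩ : ∃ A, A = VZ H.G l a ∪ TmV l a := ⟨_, rfl⟩
  obtain ⟨T, hT⟩ : ∃ T : Set V, T = TmV l a := ⟨_, rfl⟩
  rw [← hA, ← hT] at hs
  rw [← hA] at hKA
  rw [← hT] at hKT
  have hTA : T ⊆ Core H.G A T := by
    intro t ht
    refine ⟨?_, Or.inl ht⟩
    rw [hA, ← hT]
    exact Or.inr ht
  have piece : ∀ v ∈ A \ Core H.G A T, ∀ u' ∈ K, u' ∈ Comp H.G (A \ Core H.G A T) v →
      u' ∉ dD H.G β (PNb H.G A T v) →
      Der2 H.G β (CorFam l H.G) w (Comp H.G (K \ dD H.G β (PNb H.G A T v)) u') := by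
    intro v hv u' hu' hu'P hu'Z
    obtain ⟨Z, hZ, hZc⟩ := exists_pnb hs hv
    have hcen : ∀ b ∈ H.β (X ∪ Z), b ∉ Comp H.G (A \ Core H.G A T) v := by
      refine he.central _ Z hZc ?_ ?_
      · intro p hp c hcA hadj
        rw [← hA] at hcA
        by_cases hcC : c ∈ Core H.G A T
        · right
          have : c ∈ (Z : Set V) := by
            rw [hZ]
            exact ⟨hcC, p, hp, hadj⟩
          exact_mod_cast this
        · exact Or.inl (adj_mem_comp hp ⟨hcA, hcC⟩ hadj)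
      · intro t ht htP
        rw [← hT] at ht
        exact (comp_subset (A := A \ Core H.G A T) hv htP).2 (hTA ht)
    have hu'K : u' ∈ Comp H.G (Comp H.G (dD H.G β X₀)ᶜ v₀ \ dD H.G β (Y : Set V)) u := by
      rw [eK, ← hK]
      exact hu'
    have hu'2 := comp_subset (A := Comp H.G (dD H.G β X₀)ᶜ v₀ \ dD H.G β (Y : Set V))
      ⟨hu, huY⟩ hu'K
    have e1 : Comp H.G (K \ dD H.G β (PNb H.G A T v)) u' =
        Comp H.G (Comp H.G (dD H.G β X₀)ᶜ v₀ \ dD H.G β ((Y ∪ Z : Finset V) : Set V)) u' := by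
      rw [hK, ← eK, comp_comp (A := Comp H.G (dD H.G β X₀)ᶜ v₀ \ dD H.G β (Y : Set V))
        ⟨hu, huY⟩ hu'K, Finset.coe_union, dD_union, hZ, Set.sdiff_sdiff]
    rw [e1]
    have hc1 := Finset.card_union_le Y Z
    have hc2 := Finset.card_union_le X Z
    refine small (Y ∪ Z) (X ∪ Z) u' (Finset.mem_union_left _ hvY)
      (Finset.union_subset_union_left hXY) (by omega) (by omega) hu'2.1 ?_
      (fun h => hcen u' h hu'P)
    rw [Finset.coe_union, dD_union, hZ]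
    rintro (h | h)
    · exact hu'2.2 h
    · exact hu'Z h
  rw [eK, ← hK]
  have hnd : ∀ z ∉ K, ∀ x ∈ K, x ∉ dd H.G β z := by
    intro z hz x hx
    rw [hK] at hz hx
    exact region_disjoint hβ hu₁ hx hz
  by_cases hne : (K ∩ Cor H.G l a).Nonempty
  · have hfr : Frame H.G K (Cor H.G l a) := by
      have := frame_of_strip hs hKA hKT
      rw [hA, hT] at this
      exact this
    have hCor : Cor H.G l a = Core H.G A T \ T := by rw [hA, hT]; rfl
    refine Der2.frame hreg ⟨a, rfl⟩ hne hfr ?_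
    intro v hv u' hu'
    have hsub : K \ Cor H.G l a ⊆ A \ Core H.G A T := by
      rintro z ⟨hz1, hz2⟩
      rw [hCor] at hz2
      exact ⟨hKA hz1, fun h => hz2 ⟨h, hKT z hz1⟩⟩
    have h1 : ∀ c ∈ K ∩ Cor H.G l a, Att H.G K (Cor H.G l a) v c → c ∈ PNb H.G A T v := by
      rintro c ⟨hcK, hcC⟩ ⟨p, hp, hadj⟩
      rw [hCor] at hcC
      exact ⟨hcC.1, p, comp_mono hsub v hp, hadj⟩
    have h2 : K ∩ PNb H.G A T v ⊆ Cor H.G l a := by
      rintro c ⟨hcK, hcC, -⟩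
      rw [hCor]
      exact ⟨hcC, hKT c hcK⟩
    have hum : UM H.G β K (Cor H.G l a) v = Comp H.G (K \ Cor H.G l a) v ∩
        dD H.G β (K ∩ PNb H.G A T v) := by
      subst hK
      exact um_eq hβ hu₁ hfr.tri hv (PNb H.G A T v) h1 h2
    have hcp : Comp H.G (Comp H.G (K \ Cor H.G l a) v \ UM H.G β K (Cor H.G l a) v) u' =
        Comp H.G (K \ dD H.G β (PNb H.G A T v)) u' := by
      subst hK
      exact comp_piece hβ hu₁ hfr.tri hv (PNb H.G A T v) h1 h2 hu'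
    rw [hcp]
    have hu'K : u' ∈ K := (comp_subset (A := K \ Cor H.G l a) hv hu'.1).1
    refine piece v (hsub hv) u' hu'K (comp_mono hsub v hu'.1) ?_
    rintro ⟨z, hz, hzu⟩
    by_cases hzK : z ∈ K
    · apply hu'.2
      rw [hum]
      exact ⟨hu'.1, z, ⟨hzK, hz⟩, hzu⟩
    · exact hnd z hzK u' hu'K hzu
  · -- no corner: the region is one piece
    have hno : ∀ z ∈ K, z ∉ Core H.G A T := by
      intro z hz hzC
      apply hne
      refine ⟨z, hz, ?_⟩
      have : Cor H.G l a = Core H.G A T \ T := by rw [hA, hT]; rfl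
      rw [this]
      exact ⟨hzC, hKT z hz⟩
    have huK : u ∈ K := by rw [hK]; exact self_mem_comp u
    have hnd' : ∀ x ∈ K, x ∉ dD H.G β (PNb H.G A T u) := by
      rintro x hx ⟨z, hz, hzx⟩
      exact hnd z (fun h => hno z h hz.1) x hx hzx
    have h1 := piece u ⟨hKA huK, hno u huK⟩ u huK (self_mem_comp u) (hnd' u huK)
    have e2 : K \ dD H.G β (PNb H.G A T u) = K := by
      ext x
      exact ⟨fun h => h.1, fun h => ⟨h, hnd' x h⟩⟩
    have e3 : Comp H.G K u = K := by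
      have := comp_comp (G := H.G) (A := (dD H.G β ((X₀ ∪ Y : Finset V) : Set V))ᶜ) (B := ∅)
        hu₁ (self_mem_comp u)
      rw [Set.sdiff_empty, Set.sdiff_empty, ← hK] at this
      exact this
    rw [e2, e3] at h1
    exact h1

/-- **Stage 2**, from the strip theorem. -/
theorem havenThm_two_of (l : ℕ) (hl : 1 ≤ l)
    (hstrip : ∀ (V : Type) [Finite V] (G : SimpleGraph V) (a : ℕ → ℕ → V), Clean G →
      Arms G l a → ¬ HasS G l → StripC G (VZ G l a ∪ TmV l a) (TmV l a)) :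
    ∃ w : ℕ, HavenThm2 (fun _ G => ¬ HasS G l) (fun _ G => CorFam l G) w := by
  classical
  obtain ⟨k, hk⟩ := many l l 4 3 hl
  refine ⟨2 * (k + 1) + k + 1, fun V _ G β hP hcl hβ v => ?_⟩
  by_contra hbad
  obtain ⟨X₀, v₀, hX₀, hv₀, hnot, hmin, H, hG, -, -, hbig⟩ := hs_of_bad hβ k (2 * (k + 1)) le_rfl
    (Der2 G β (CorFam l G) (2 * (k + 1) + k + 1))
    (fun K hK Y hY h => good_of_kill hβ (fun K y h1 h2 h3 => Der2.step h1 h2 h3) hK Y
      (by omega) h) _ (region_univ _ v) hbad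
  apply hnot
  obtain ⟨X, a, Q, hXc, h1, h2⟩ := hk V k H le_rfl (hG ▸ hP)
  have he : Ends H l a Q X := ⟨hl, hXc, fun i hi => (h1 i hi).1, fun i hi => (h1 i hi).2.1,
    fun i hi => (h1 i hi).2.2.1, fun i hi => (h1 i hi).2.2.2.1,
    fun i hi => (h1 i hi).2.2.2.2.2.1, fun i hi => (h1 i hi).2.2.2.2.2.2, h2⟩
  have ha : Arms G l a := hG ▸ he.arms
  exact good_of_haven hβ le_rfl le_rfl hX₀ hv₀ hmin H hG hbig he (hstrip V G a hcl ha hP)

end Pool.Agent.Work.MP_c4d05f_lc.N
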