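import Pool.Agent.Work.MP_c4d05f_lc.N.Fr.Arm
import Pool.Agent.Work.MP_c4d05f_lc.N.Fr.StripC
import Pool.Agent.Work.MP_c4d05f_lc.N.Str.Main

/-!
# The strip theorem for the set `VZ ∪ TmV`
-/

set_option autoImplicit false

namespace Pool.Agent.Work.MP_c4d05f_lc.N

open Pool.Agent.Work.MP_c4d05f_lc Pool.Agent.Work.MP_c4d05f_lc.Hav
open Pool.Agent.Work.MP_5f857a_co.L (Con)

variable {V : Type} {G : SimpleGraph V} {A T S : Set V}

/-- The graph `G` restricted to `A` (the other vertices are isolated). -/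
def Gm (G : SimpleGraph V) (A : Set V) : SimpleGraph V where
  Adj x y := G.Adj x y ∧ x ∈ A ∧ y ∈ A
  symm := ⟨fun _ _ h => ⟨h.1.symm, h.2.2, h.2.1⟩⟩
  loopless := ⟨fun _ h => G.irrefl h.1⟩

theorem reach_of_con {a b : V} (h : Con (Gm G A) S a b) : Reach G (A ∩ S) a b := by
  obtain ⟨p, hp⟩ := h
  induction p with
  | nil => exact Relation.ReflTransGen.refl
  | @cons u v w hadj p ih =>
    have h1 := ih (fun x hx => hp x (by simp [hx]))
    have hv : v ∈ S := hp v (by simp)
    exact Relation.ReflTransGen.head ⟨hadj.1, hadj.2.2, hv⟩ h1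

theorem con_of_reach {a b : V} (ha : a ∈ A ∩ S) (h : Reach G (A ∩ S) a b) :
    Con (Gm G A) S a b := by
  have key : Con (Gm G A) S a b ∧ b ∈ A ∩ S := by
    induction h with
    | refl => exact ⟨Pool.Agent.Work.MP_5f857a_co.L.Con.refl ha.2, ha⟩
    | @tail b c h1 h2 ih =>
      exact ⟨ih.1.trans (Pool.Agent.Work.MP_5f857a_co.L.Con.adj ⟨h2.1, ih.2.1, h2.2.1⟩
        ih.2.2 h2.2.2), h2.2⟩
  exact key.1

/-- The first vertex of a walk of `Gm` between different vertices is in `A`. -/
theorem mem_of_con {a b : V} (h : Con (Gm G A) S a b) (hab : a ≠ b) : a ∈ A := by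
  obtain ⟨p, -⟩ := h
  cases p with
  | nil => exact absurd rfl hab
  | cons hadj p => exact hadj.2.1

/-- A walk that starts at `h` and otherwise stays in `U`. -/
theorem reach_of_arm {h t : V} {U : Set V} (hc : Con (Gm G A) (insert h U) h t) :
    Reach G (U ∩ A) h t := by
  classical
  obtain ⟨p, hp⟩ := hc
  have hpath := p.bypass_isPath
  have hsup : ∀ x ∈ p.bypass.support, x ∈ insert h U :=
    fun x hx => hp x (p.support_bypass_subset_support hx)
  revert hpath hsup
  generalize p.bypass = q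
  intro hpath hsup
  cases q with
  | nil => exact Relation.ReflTransGen.refl
  | @cons _ v _ hadj q =>
    rw [SimpleGraph.Walk.cons_isPath_iff] at hpath
    have hU : ∀ x ∈ q.support, x ∈ U := by
      intro x hx
      rcases hsup x (by simp [hx]) with rfl | h1
      · exact absurd hx hpath.2
      · exact h1
    have h1 : Con (Gm G A) U v t := ⟨q, hU⟩
    have h2 : Reach G (A ∩ U) v t := reach_of_con h1
    rw [Set.inter_comm] at h2
    exact Relation.ReflTransGen.head ⟨hadj.1, hU v (by simp), hadj.2.2⟩ h2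

/-- The two definitions of the core agree. -/
theorem core_eq (hT : T ⊆ A) (hT2 : ∃ t ∈ T, ∃ t' ∈ T, t ≠ t') :
    Str.core (Gm G A) T = Core G A T := by
  classical
  ext v
  constructor
  · intro hv
    by_cases hvT : v ∈ T
    · exact ⟨hT hvT, Or.inl hvT⟩
    rcases hv with hv | hv
    · exact absurd hv hvT
    have hvA : v ∈ A := by
      obtain ⟨t, ht, hc⟩ := hv ∅ (Or.inl (by simp)) (by simp)
      exact mem_of_con hc (fun he => hvT (he ▸ ht))
    refine ⟨hvA, Or.inr ?_⟩
    intro x y z hx hy hz hs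
    set Z : Finset V := ({x, y, z} : Finset V).filter (· ∈ A) with hZ
    have hmem : ∀ u, u ∈ Z ↔ (u = x ∨ u = y ∨ u = z) ∧ u ∈ A := by
      intro u
      simp [hZ]
    have hcond : Z.card ≤ 2 ∨ ∃ a b c, Str.Tri (Gm G A) a b c ∧ (Z : Set V) = {a, b, c} := by
      by_cases hall : x ∈ A ∧ y ∈ A ∧ z ∈ A
      · rcases hs with rfl | ⟨h1, h2, h3⟩
        · left
          have : Z ⊆ {x, z} := by
            intro u hu
            rw [hmem] at hu
            simp only [Finset.mem_insert, Finset.mem_singleton]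
            tauto
          exact (Finset.card_le_card this).trans Finset.card_le_two
        · right
          refine ⟨x, y, z, ⟨⟨h1, hall.1, hall.2.1⟩, ⟨h3, hall.1, hall.2.2⟩,
            ⟨h2, hall.2.1, hall.2.2⟩⟩, ?_⟩
          ext u
          simp only [Finset.mem_coe, hmem, Set.mem_insert_iff, Set.mem_singleton_iff]
          constructor
          · exact fun h => h.1
          · rintro (rfl | rfl | rfl)
            · exact ⟨Or.inl rfl, hall.1⟩
            · exact ⟨Or.inr (Or.inl rfl), hall.2.1⟩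
            · exact ⟨Or.inr (Or.inr rfl), hall.2.2⟩
      · left
        by_cases hx' : x ∈ A
        · by_cases hy' : y ∈ A
          · have hz' : z ∉ A := fun h => hall ⟨hx', hy', h⟩
            have : Z ⊆ {x, y} := by
              intro u hu
              rw [hmem] at hu
              simp only [Finset.mem_insert, Finset.mem_singleton]
              rcases hu with ⟨h | h | h, h'⟩
              · exact Or.inl h
              · exact Or.inr h
              · exact absurd (h ▸ h') hz'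
            exact (Finset.card_le_card this).trans Finset.card_le_two
          · have : Z ⊆ {x, z} := by
              intro u hu
              rw [hmem] at hu
              simp only [Finset.mem_insert, Finset.mem_singleton]
              rcases hu with ⟨h | h | h, h'⟩
              · exact Or.inl h
              · exact absurd (h ▸ h') hy'
              · exact Or.inr h
            exact (Finset.card_le_card this).trans Finset.card_le_two
        · have : Z ⊆ {y, z} := by
            intro u hu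
            rw [hmem] at hu
            simp only [Finset.mem_insert, Finset.mem_singleton]
            rcases hu with ⟨h | h | h, h'⟩
            · exact absurd (h ▸ h') hx'
            · exact Or.inl h
            · exact Or.inr h
          exact (Finset.card_le_card this).trans Finset.card_le_two
    have hvZ : v ∉ Z := by
      rw [hmem]
      rintro ⟨h | h | h, -⟩
      · exact hx h
      · exact hy h
      · exact hz h
    obtain ⟨t, ht, hc⟩ := hv Z hcond hvZ
    have htZ : t ∉ Z := hc.right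
    rw [hmem] at htZ
    have hr := reach_of_con hc
    have hsub : A ∩ (Z : Set V)ᶜ ⊆ A \ {x, y, z} := by
      rintro u ⟨hu, hu'⟩
      refine ⟨hu, fun h => hu' ?_⟩
      simp only [Finset.mem_coe, hmem]
      exact ⟨h, hu⟩
    refine ⟨t, ht, fun h => htZ ⟨Or.inl h, hT ht⟩, fun h => htZ ⟨Or.inr (Or.inl h), hT ht⟩,
      fun h => htZ ⟨Or.inr (Or.inr h), hT ht⟩, ?_⟩
    exact comp_mono (G := G) hsub v (show t ∈ Comp G (A ∩ (Z : Set V)ᶜ) v from hr)
  · rintro ⟨hvA, hv | hv⟩
    · exact Or.inl hv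
    right
    intro Z hZ hvZ
    obtain ⟨x, y, z, hs, hsub, hvx, hvy, hvz⟩ : ∃ x y z, Sep3 G x y z ∧
        (Z : Set V) ⊆ {x, y, z} ∧ v ≠ x ∧ v ≠ y ∧ v ≠ z := by
      rcases hZ with hZ | ⟨x, y, z, htri, he⟩
      · obtain ⟨w, hw⟩ : ∃ w, v ≠ w := by
          obtain ⟨t, -, t', -, htt⟩ := hT2
          by_cases h : v = t
          · exact ⟨t', fun h' => htt (h.symm.trans h')⟩
          · exact ⟨t, h⟩
        rcases Nat.lt_or_ge Z.card 1 with h0 | h0
        · have : Z = ∅ := Finset.card_eq_zero.1 (by omega)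
          subst this
          exact ⟨w, w, w, Or.inl rfl, by simp, hw, hw, hw⟩
        rcases Nat.lt_or_ge Z.card 2 with h1 | h1
        · obtain ⟨x, rfl⟩ := Finset.card_eq_one.1 (show Z.card = 1 by omega)
          have hvx : v ≠ x := fun h => hvZ (by simp [h])
          exact ⟨x, x, x, Or.inl rfl, by simp, hvx, hvx, hvx⟩
        · obtain ⟨x, y, hxy, rfl⟩ := Finset.card_eq_two.1 (show Z.card = 2 by omega)
          have hvx : v ≠ x := fun h => hvZ (by simp [h])
          have hvy : v ≠ y := fun h => hvZ (by simp [h])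
          refine ⟨x, x, y, Or.inl rfl, ?_, hvx, hvx, hvy⟩
          intro u hu
          simpa using hu
      · have hvx : v ≠ x := fun h => hvZ (by rw [← Finset.mem_coe, he, h]; simp)
        have hvy : v ≠ y := fun h => hvZ (by rw [← Finset.mem_coe, he, h]; simp)
        have hvz : v ≠ z := fun h => hvZ (by rw [← Finset.mem_coe, he, h]; simp)
        exact ⟨x, y, z, Or.inr ⟨htri.1.1, htri.2.2.1, htri.2.1.1⟩, he.subset, hvx, hvy, hvz⟩
    obtain ⟨t, ht, -, -, -, hr⟩ := hv x y z hvx hvy hvz hs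
    refine ⟨t, ht, ?_⟩
    have hsub' : A \ {x, y, z} ⊆ A ∩ (Z : Set V)ᶜ :=
      fun u hu => ⟨hu.1, fun h => hu.2 (hsub h)⟩
    refine con_of_reach ⟨hvA, hvZ⟩ ?_
    exact comp_mono (G := G) hsub' v (show t ∈ Comp G (A \ {x, y, z}) v from hr)

/-- The conclusion of the strip theorem in the form used by the haven side. -/
theorem stripC_of_strips (hT : T ⊆ A) (hT2 : ∃ t ∈ T, ∃ t' ∈ T, t ≠ t') {π : V → V}
    (h : Str.Strips (Gm G A) T π) : StripC G A T := by
  have hcore := core_eq (G := G) hT hT2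
  have hCA : Core G A T ⊆ A := fun v hv => hv.1
  have hatt : ∀ v ∈ A \ Core G A T, ∀ c ∈ Core G A T, Att G A (Core G A T) v c →
      ∃ u, Con (Gm G A) (Str.core (Gm G A) T)ᶜ v u ∧ (Gm G A).Adj u c := by
    rintro v hv c hc ⟨u, hu, hadj⟩
    have huA : u ∈ A := (comp_subset hv hu).1
    refine ⟨u, ?_, hadj, huA, hCA hc⟩
    rw [hcore]
    exact con_of_reach ⟨hv.1, hv.2⟩ hu
  have hlk : ∀ c ∈ Core G A T, ∀ d ∈ Core G A T, ¬ SameTri G c d →
      Lk G A (Core G A T) c d → d = π c := by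
    rintro c hc d hd hns ⟨hne, hadj | ⟨v, hv, h1, h2⟩⟩
    · rcases h.adj c (hcore ▸ hc) d (hcore ▸ hd) ⟨hadj, hCA hc, hCA hd⟩ with
        h1 | ⟨-, -, b, -, -, h1⟩
      · exact h1
      · exact absurd ⟨b, h1.1.1, h1.2.2.1, h1.2.1.1⟩ hns
    · obtain ⟨u, hu, huc⟩ := hatt v hv c hc h1
      obtain ⟨u', hu', huc'⟩ := hatt v hv d hd h2
      have hvc : v ∉ Str.core (Gm G A) T := by rw [hcore]; exact hv.2
      rcases h.comp v hvc with ⟨x, y, z, ht, -, -, -, -, -, -, hx⟩ | ⟨e, he, hx⟩
      · exfalso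
        have e1 := hx u c hu (hcore ▸ hc) huc
        have e2 := hx u' d hu' (hcore ▸ hd) huc'
        have t1 := ht.1.1
        have t2 := ht.2.1.1
        have t3 := ht.2.2.1
        apply hns
        rcases e1 with rfl | rfl | rfl <;> rcases e2 with rfl | rfl | rfl
        · exact absurd rfl hne
        · exact ⟨z, t1, t3, t2⟩
        · exact ⟨y, t2, t3.symm, t1⟩
        · exact ⟨z, t1.symm, t2, t3⟩
        · exact absurd rfl hne
        · exact ⟨x, t3, t2.symm, t1.symm⟩
        · exact ⟨y, t2.symm, t1, t3.symm⟩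
        · exact ⟨x, t3.symm, t1.symm, t2.symm⟩
        · exact absurd rfl hne
      · have e1 := hx u c hu (hcore ▸ hc) huc
        have e2 := hx u' d hu' (hcore ▸ hd) huc'
        rcases e1 with rfl | rfl <;> rcases e2 with rfl | rfl
        · exact absurd rfl hne
        · rfl
        · exact (h.inv d he).symm
        · exact absurd rfl hne
  refine ⟨?_, ?_, ?_⟩
  · rintro c ⟨hc, hcT⟩
    obtain ⟨a, b, ht, ha, haT, hb, hbT, -, -⟩ := h.tri c (hcore ▸ hc) hcT
    exact ⟨a, ⟨hcore ▸ ha, haT⟩, b, ⟨hcore ▸ hb, hbT⟩, ht.1.1, ht.2.2.1, ht.2.1.1⟩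
  · intro v hv
    have hvc : v ∉ Str.core (Gm G A) T := by rw [hcore]; exact hv.2
    rcases h.comp v hvc with ⟨x, y, z, ht, -, -, -, -, -, -, hx⟩ | ⟨e, he, hx⟩
    · refine ⟨x, y, z, Or.inr ⟨ht.1.1, ht.2.2.1, ht.2.1.1⟩, fun c hc hac => ?_⟩
      obtain ⟨u, hu, huc⟩ := hatt v hv c hc hac
      exact hx u c hu (hcore ▸ hc) huc
    · refine ⟨e, e, π e, Or.inl rfl, fun c hc hac => ?_⟩
      obtain ⟨u, hu, huc⟩ := hatt v hv c hc hac
      rcases hx u c hu (hcore ▸ hc) huc with h1 | h1
      · exact Or.inl h1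
      · exact Or.inr (Or.inr h1)
  · intro c hc d hd d' hd' h1 h2 h3 h4
    exact (hlk c hc d hd h1 h3).trans (hlk c hc d' hd' h2 h4).symm

/-- **The strip theorem for the arms.** -/
theorem stripC_of_arms [Finite V] {l : ℕ} {a : ℕ → ℕ → V} (hc : Clean G) (ha : Arms G l a)
    (hS : ¬ HasS G l) : StripC G (VZ G l a ∪ TmV l a) (TmV l a) := by
  have hl := ha.pos
  have hT : TmV l a ⊆ VZ G l a ∪ TmV l a := Set.subset_union_right
  have hmem : ∀ i < 4, a i (l - 1) ∈ TmV l a := fun i hi => ⟨i, hi, rfl⟩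
  have hne : ∀ i i', i ≠ i' → i < 4 → i' < 4 → a i (l - 1) ≠ a i' (l - 1) :=
    fun i i' h hi hi' => (ha.anti' h hi hi' (by omega) (by omega)).1
  have hT2 : ∃ t ∈ TmV l a, ∃ t' ∈ TmV l a, t ≠ t' :=
    ⟨_, hmem 0 (by omega), _, hmem 1 (by omega), hne 0 1 (by omega) (by omega) (by omega)⟩
  obtain ⟨π, hπ⟩ : ∃ π : V → V, Str.Strips (Gm G (VZ G l a ∪ TmV l a)) (TmV l a) π := by
    apply Str.strips
    · intro v x y z w h1 h2 h3 h4 h5 h6
      exact hc v x y z w h1.1 h2.1 h3.1 h4.1 h5.1 h6.1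
    · rintro t ⟨i, hi, rfl⟩ x y hx hy
      exact (ha.tm_nbr hi hx.2.2 hx.1).trans (ha.tm_nbr hi hy.2.2 hy.1).symm
    · rintro h U₁ U₂ U₃ ⟨h1, t₁, ht₁, hU₁, c₁⟩ ⟨h2, t₂, ht₂, hU₂, c₂⟩ ⟨h3, t₃, ht₃, hU₃, c₃⟩
        a12 a13 a23
      have hhA : h ∈ VZ G l a ∪ TmV l a := mem_of_con c₁ (fun he => h1 (he ▸ hU₁))
      have hanti : ∀ {U U' : Set V}, Anti (Gm G (VZ G l a ∪ TmV l a)) U U' →
          Anti G (U ∩ (VZ G l a ∪ TmV l a)) (U' ∩ (VZ G l a ∪ TmV l a)) := by
        intro U U' hUU u hu v hv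
        have h4 := hUU u hu.1 v hv.1
        exact ⟨h4.1, fun h5 => h4.2 ⟨h5, hu.2, hv.2⟩⟩
      let U : ℕ → Set V := fun i => if i = 0 then U₁ else if i = 1 then U₂ else U₃
      let t : ℕ → V := fun i => if i = 0 then t₁ else if i = 1 then t₂ else t₃
      have e3 : ∀ {P : ℕ → Prop}, P 0 → P 1 → P 2 → ∀ i < 3, P i := by
        intro P p0 p1 p2 i hi
        rcases (by omega : i = 0 ∨ i = 1 ∨ i = 2) with rfl | rfl | rfl
        · exact p0
        · exact p1
        · exact p2
      refine ha.noStar hS h (fun i => U i ∩ (VZ G l a ∪ TmV l a)) t hhA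
        (fun i _ => Set.inter_subset_right) ?_ ?_ ?_ ?_ ?_
      · exact e3 (P := fun i => h ∉ U i ∩ (VZ G l a ∪ TmV l a)) (fun h' => h1 h'.1)
          (fun h' => h2 h'.1) (fun h' => h3 h'.1)
      · intro i j hij hj
        rcases (by omega : (i = 0 ∧ j = 1) ∨ (i = 0 ∧ j = 2) ∨ (i = 1 ∧ j = 2)) with
          ⟨rfl, rfl⟩ | ⟨rfl, rfl⟩ | ⟨rfl, rfl⟩
        · exact hanti a12
        · exact hanti a13
        · exact hanti a23
      · exact e3 (P := fun i => t i ∈ TmV l a) ht₁ ht₂ ht₃
      · exact e3 (P := fun i => t i ∈ U i ∩ (VZ G l a ∪ TmV l a)) ⟨hU₁, hT ht₁⟩ ⟨hU₂, hT ht₂⟩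
          ⟨hU₃, hT ht₃⟩
      · exact e3 (P := fun i => Reach G (U i ∩ (VZ G l a ∪ TmV l a)) h (t i)) (reach_of_arm c₁)
          (reach_of_arm c₂) (reach_of_arm c₃)
    · intro t ht t' ht'
      refine con_of_reach ⟨hT ht, trivial⟩ ?_
      rw [Set.inter_univ]
      exact ha.tm_conn ht ht'
    · exact ⟨_, hmem 0 (by omega), _, hmem 1 (by omega),
        hne 0 1 (by omega) (by omega) (by omega)⟩
  exact stripC_of_strips hT hT2 hπ

end Pool.Agent.Work.MP_c4d05f_lc.N
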