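import Pool.Agent.Work.MP_c4d05f_lc.N.Fr.Fin
import Pool.Agent.Work.MP_c4d05f_lc.N.Fr.Str

/-!
# The haven part of stage 2
-/

set_option autoImplicit false

namespace Pool.Agent.Work.MP_c4d05f_lc.N

open Pool.Agent.Work.MP_c4d05f_lc Pool.Agent.Work.MP_c4d05f_lc.Hav

/-- **The haven part of stage 2.** -/
theorem havenThm_two (l : ℕ) (hl : 1 ≤ l) :
    ∃ w, HavenThm2 (fun _ G => ¬ HasS G l) (fun _ G => CorFam l G) w :=
  havenThm_two_of l hl fun _ _ _ _ hc ha hS => stripC_of_arms hc ha hS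

end Pool.Agent.Work.MP_c4d05f_lc.N
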